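import Mathlib

set_option autoImplicit false

namespace Pool.Agent.MP_4ec7af_co

variable {V : Type*}

/-- The set `PN(v, D)` of `D`-private neighbours of `v`: the vertices `w` which are equal or
adjacent to `v`, and neither equal nor adjacent to any vertex of `D - {v}`. -/
def PN (G : SimpleGraph V) (v : V) (D : Finset V) : Set V :=
  {w | (w = v ∨ G.Adj w v) ∧ ∀ u ∈ D, u ≠ v → w ≠ u ∧ ¬ G.Adj w u}

/-- `D` is irredundant: every vertex of `D` has a `D`-private neighbour. -/
def Irredundant (G : SimpleGraph V) (D : Finset V) : Prop :=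
  ∀ v ∈ D, (PN G v D).Nonempty

/-- The upper irredundance number `IR(G)`: the maximum size of an irredundant set. -/
noncomputable def IR (G : SimpleGraph V) : ℕ :=
  sSup {k | ∃ D : Finset V, Irredundant G D ∧ D.card = k}

/-- An `IR(G)`-set is an irredundant set of size `IR(G)`. -/
def IsIRSet (G : SimpleGraph V) (D : Finset V) : Prop :=
  Irredundant G D ∧ D.card = IR G

/-- The `IR`-graph of `G`: its vertices are the `IR(G)`-sets, and `D`, `D'` are adjacent iff there
are `u ∈ D` and `v ∈ D' - {u}` with `uv ∈ E(G)` and `D' = (D - {u}) ∪ {v}`. -/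
def irGraph [DecidableEq V] (G : SimpleGraph V) : SimpleGraph {D : Finset V // IsIRSet G D} where
  Adj D D' := ∃ u ∈ D.1, ∃ v ∈ D'.1 \ {u}, G.Adj u v ∧ D'.1 = (D.1 \ {u}) ∪ {v}
  symm := ⟨by
    rintro ⟨D, hD⟩ ⟨D', hD'⟩ ⟨u, hu, v, hv, huv, h⟩
    simp only at *
    have hc : D'.card = D.card := by rw [hD'.2, hD.2]
    have hvu : v ≠ u := huv.ne'
    have hvD : v ∉ D := by
      intro hvD
      have h1 : D' = D \ {u} := by
        rw [h]
        ext x
        simp only [Finset.mem_union, Finset.mem_sdiff, Finset.mem_singleton]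
        constructor
        · rintro (h | rfl)
          · exact h
          · exact ⟨hvD, hvu⟩
        · exact fun h => Or.inl h
      have h2 : D'.card < D.card := by
        rw [h1]
        exact Finset.card_lt_card (Finset.sdiff_ssubset (by simpa using hu) (by simp))
      omega
    refine ⟨v, (Finset.mem_sdiff.1 hv).1, u, ?_, huv.symm, ?_⟩
    · simp [hu, hvu.symm]
    · rw [h]
      ext x
      simp only [Finset.mem_union, Finset.mem_sdiff, Finset.mem_singleton]
      constructor
      · intro hx
        by_cases hxu : x = u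
        · exact Or.inr hxu
        · exact Or.inl ⟨Or.inl ⟨hx, hxu⟩, fun hxv => hvD (hxv ▸ hx)⟩
      · rintro (⟨h1 | h1, h2⟩ | rfl)
        · exact h1.1
        · exact absurd h1 h2
        · exact hu⟩
  loopless := ⟨by
    rintro ⟨D, hD⟩ ⟨u, hu, v, hv, huv, h⟩
    simp only at *
    have h1 : u ∈ (D \ {u}) ∪ {v} := h ▸ hu
    rcases Finset.mem_union.1 h1 with h2 | h2
    · exact (Finset.mem_sdiff.1 h2).2 (Finset.mem_singleton_self u)
    · exact huv.ne (Finset.mem_singleton.1 h2)⟩

end Pool.Agent.MP_4ec7af_co
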