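import Mathlib
import Pool.Agent.MP_4ec7af_co.Defs

set_option autoImplicit false

namespace Pool.Agent.MP_4ec7af_co

/-- Closed neighbourhood bit masks of the 13-vertex graph. -/
def cm : List ℕ := [7285, 7598, 3807, 6126, 6005, 7483, 5981, 3982, 4090, 4060, 8191, 8103, 7291]

/-- The 13-vertex graph. -/
def H : SimpleGraph (Fin 13) where
  Adj a b := a ≠ b ∧ (cm.getD a.val 0).testBit b.val = true
  symm := ⟨by decide +kernel⟩
  loopless := ⟨by decide +kernel⟩

instance : DecidableRel H.Adj := fun a b =>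
  inferInstanceAs (Decidable (a ≠ b ∧ (cm.getD a.val 0).testBit b.val = true))

theorem irr_subset {V : Type*} {G : SimpleGraph V} {D D' : Finset V}
    (h : Irredundant G D) (hs : D' ⊆ D) : Irredundant G D' := by
  intro v hv
  obtain ⟨w, hw1, hw2⟩ := h v (hs hv)
  exact ⟨w, hw1, fun u hu => hw2 u (hs hu)⟩

/-- Is there a vertex whose closed neighbourhood meets the set `m` exactly in the bit `b`? -/
def priv (m b : ℕ) : Bool := cm.any fun c => (c &&& m) == b

theorem closed_testBit : ∀ w u : Fin 13, ((cm.getD w.val 0).testBit u.val = true ↔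
    (w = u ∨ H.Adj w u)) := by
  decide +kernel

/-- The bit mask of a finite set, as a disjunction of powers of two. -/
theorem priv_of_pn {D : Finset (Fin 13)} {m : ℕ}
    (hm : ∀ i : ℕ, m.testBit i = true ↔ ∃ u ∈ D, u.val = i) {v : Fin 13} (hv : v ∈ D)
    (h : (PN H v D).Nonempty) : priv m (2 ^ v.val) = true := by
  obtain ⟨w, hw1, hw2⟩ := h
  unfold priv
  rw [List.any_eq_true]
  refine ⟨cm.getD w.val 0, ?_, ?_⟩
  · have hlen : w.val < cm.length := w.isLt
    rw [List.getD_eq_getElem _ _ hlen]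
    exact List.getElem_mem hlen
  · rw [beq_iff_eq]
    apply Nat.eq_of_testBit_eq
    intro i
    rw [Nat.testBit_and, Nat.testBit_two_pow, Bool.eq_iff_iff, Bool.and_eq_true, hm i,
      decide_eq_true_iff]
    constructor
    · rintro ⟨h1, u, hu, rfl⟩
      by_contra hne
      have huv : u ≠ v := fun h => hne (by rw [h])
      have h2 := hw2 u hu huv
      rcases (closed_testBit w u).1 h1 with h3 | h3
      · exact h2.1 h3
      · exact h2.2 h3
    · rintro rfl
      exact ⟨(closed_testBit w v).2 hw1, v, hv, rfl⟩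

def chk4 : Bool := (List.range 13).all fun a => (List.range a).all fun b =>
  (List.range b).all fun c => (List.range c).all fun d =>
    !(priv (2 ^ a ||| (2 ^ b ||| (2 ^ c ||| 2 ^ d))) (2 ^ a) &&
      (priv (2 ^ a ||| (2 ^ b ||| (2 ^ c ||| 2 ^ d))) (2 ^ b) &&
      (priv (2 ^ a ||| (2 ^ b ||| (2 ^ c ||| 2 ^ d))) (2 ^ c) &&
      priv (2 ^ a ||| (2 ^ b ||| (2 ^ c ||| 2 ^ d))) (2 ^ d))))

theorem chk4_true : chk4 = true := by decide +kernel

/-- The triples `a > b > c` forming the `IR`-sets, in cyclic order. -/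
def tri : List (ℕ × ℕ × ℕ) := [(9, 1, 0), (11, 1, 0), (11, 5, 0), (11, 5, 4), (11, 4, 3),
  (9, 4, 3), (9, 6, 3), (7, 6, 3), (7, 6, 5), (8, 7, 5), (8, 5, 1), (12, 8, 1), (12, 8, 2),
  (12, 6, 2), (6, 2, 0), (9, 2, 0)]

def chk3 : Bool := (List.range 13).all fun a => (List.range a).all fun b =>
  (List.range b).all fun c =>
    !(priv (2 ^ a ||| (2 ^ b ||| 2 ^ c)) (2 ^ a) &&
      (priv (2 ^ a ||| (2 ^ b ||| 2 ^ c)) (2 ^ b) &&
      priv (2 ^ a ||| (2 ^ b ||| 2 ^ c)) (2 ^ c))) || tri.elem (a, b, c)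

theorem chk3_true : chk3 = true := by decide +kernel

/-- The cycle of `IR`-sets. -/
def f : Fin 16 → Finset (Fin 13) :=
  ![{9, 1, 0}, {11, 1, 0}, {11, 5, 0}, {11, 5, 4}, {11, 4, 3}, {9, 4, 3}, {9, 6, 3}, {7, 6, 3},
    {7, 6, 5}, {8, 7, 5}, {8, 5, 1}, {12, 8, 1}, {12, 8, 2}, {12, 6, 2}, {6, 2, 0}, {9, 2, 0}]

/-- Boolean version of irredundance. -/
def irrB (D : Finset (Fin 13)) : Prop :=
  ∀ v ∈ D, ∃ w, (w = v ∨ H.Adj w v) ∧ ∀ u ∈ D, u ≠ v → w ≠ u ∧ ¬ H.Adj w u

instance (D : Finset (Fin 13)) : Decidable (irrB D) := by unfold irrB; infer_instance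

theorem f_irr : ∀ i, irrB (f i) := by decide +kernel

theorem f_card : ∀ i, (f i).card = 3 := by decide +kernel

theorem f_inj : Function.Injective f := by
  have : ∀ i j, f i = f j → i = j := by decide +kernel
  exact fun i j => this i j

theorem mask4 (a b c d : Fin 13) (i : ℕ) :
    (2 ^ a.val ||| (2 ^ b.val ||| (2 ^ c.val ||| 2 ^ d.val))).testBit i = true ↔
      ∃ u ∈ ({a, b, c, d} : Finset (Fin 13)), u.val = i := by
  simp only [Nat.testBit_or, Nat.testBit_two_pow, Bool.or_eq_true, decide_eq_true_iff,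
    Finset.mem_insert, Finset.mem_singleton]
  constructor
  · rintro (h | h | h | h)
    · exact ⟨a, by simp, h⟩
    · exact ⟨b, by simp, h⟩
    · exact ⟨c, by simp, h⟩
    · exact ⟨d, by simp, h⟩
  · rintro ⟨u, rfl | rfl | rfl | rfl, h⟩
    · exact Or.inl h
    · exact Or.inr (Or.inl h)
    · exact Or.inr (Or.inr (Or.inl h))
    · exact Or.inr (Or.inr (Or.inr h))

theorem mask3 (a b c : Fin 13) (i : ℕ) :
    (2 ^ a.val ||| (2 ^ b.val ||| 2 ^ c.val)).testBit i = true ↔
      ∃ u ∈ ({a, b, c} : Finset (Fin 13)), u.val = i := by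
  simp only [Nat.testBit_or, Nat.testBit_two_pow, Bool.or_eq_true, decide_eq_true_iff,
    Finset.mem_insert, Finset.mem_singleton]
  constructor
  · rintro (h | h | h)
    · exact ⟨a, by simp, h⟩
    · exact ⟨b, by simp, h⟩
    · exact ⟨c, by simp, h⟩
  · rintro ⟨u, rfl | rfl | rfl, h⟩
    · exact Or.inl h
    · exact Or.inr (Or.inl h)
    · exact Or.inr (Or.inr h)

theorem no_four (a b c d : Fin 13) (hba : b < a) (hcb : c < b) (hdc : d < c) :
    ¬ Irredundant H {a, b, c, d} := by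
  intro h
  have hm := mask4 a b c d
  have h1 := priv_of_pn hm (v := a) (by simp) (h a (by simp))
  have h2 := priv_of_pn hm (v := b) (by simp) (h b (by simp))
  have h3 := priv_of_pn hm (v := c) (by simp) (h c (by simp))
  have h4 := priv_of_pn hm (v := d) (by simp) (h d (by simp))
  have hc := chk4_true
  unfold chk4 at hc
  rw [List.all_eq_true] at hc
  have hc1 := hc a.val (List.mem_range.2 a.isLt)
  rw [List.all_eq_true] at hc1
  have hc2 := hc1 b.val (List.mem_range.2 hba)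
  rw [List.all_eq_true] at hc2
  have hc3 := hc2 c.val (List.mem_range.2 hcb)
  rw [List.all_eq_true] at hc3
  have hc4 := hc3 d.val (List.mem_range.2 hdc)
  rw [h1, h2, h3, h4] at hc4
  simp at hc4

theorem three (a b c : Fin 13) (hba : b < a) (hcb : c < b)
    (h : Irredundant H {a, b, c}) : ∃ i, f i = {a, b, c} := by
  have hm := mask3 a b c
  have h1 := priv_of_pn hm (v := a) (by simp) (h a (by simp))
  have h2 := priv_of_pn hm (v := b) (by simp) (h b (by simp))
  have h3 := priv_of_pn hm (v := c) (by simp) (h c (by simp))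
  have hc := chk3_true
  unfold chk3 at hc
  rw [List.all_eq_true] at hc
  have hc1 := hc a.val (List.mem_range.2 a.isLt)
  rw [List.all_eq_true] at hc1
  have hc2 := hc1 b.val (List.mem_range.2 hba)
  rw [List.all_eq_true] at hc2
  have hc3 := hc2 c.val (List.mem_range.2 hcb)
  rw [h1, h2, h3] at hc3
  simp only [Bool.and_self, Bool.not_true, Bool.false_or, List.elem_eq_mem, tri,
    decide_eq_true_iff, List.mem_cons, Prod.mk.injEq, List.not_mem_nil, or_false] at hc3
  have key : ∀ (x y z : Fin 13), a.val = x.val ∧ b.val = y.val ∧ c.val = z.val →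
      ({a, b, c} : Finset (Fin 13)) = {x, y, z} := by
    rintro x y z ⟨hx, hy, hz⟩
    rw [Fin.ext hx, Fin.ext hy, Fin.ext hz]
  rcases hc3 with h | h | h | h | h | h | h | h | h | h | h | h | h | h | h | h
  · exact ⟨0, (key 9 1 0 h).symm⟩
  · exact ⟨1, (key 11 1 0 h).symm⟩
  · exact ⟨2, (key 11 5 0 h).symm⟩
  · exact ⟨3, (key 11 5 4 h).symm⟩
  · exact ⟨4, (key 11 4 3 h).symm⟩
  · exact ⟨5, (key 9 4 3 h).symm⟩
  · exact ⟨6, (key 9 6 3 h).symm⟩
  · exact ⟨7, (key 7 6 3 h).symm⟩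
  · exact ⟨8, (key 7 6 5 h).symm⟩
  · exact ⟨9, (key 8 7 5 h).symm⟩
  · exact ⟨10, (key 8 5 1 h).symm⟩
  · exact ⟨11, (key 12 8 1 h).symm⟩
  · exact ⟨12, (key 12 8 2 h).symm⟩
  · exact ⟨13, (key 12 6 2 h).symm⟩
  · exact ⟨14, (key 6 2 0 h).symm⟩
  · exact ⟨15, (key 9 2 0 h).symm⟩

theorem card_le {D : Finset (Fin 13)} (h : Irredundant H D) : D.card ≤ 3 := by
  by_contra hc
  obtain ⟨D', hD', hcard⟩ := Finset.exists_subset_card_eq (show 4 ≤ D.card by omega)
  set e := D'.orderEmbOfFin hcard with he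
  have hD : D' = {e 3, e 2, e 1, e 0} := by
    ext x
    have := Finset.range_orderEmbOfFin D' hcard
    rw [← Finset.mem_coe, ← this, Set.mem_range]
    simp only [Finset.mem_insert, Finset.mem_singleton]
    constructor
    · rintro ⟨i, rfl⟩
      fin_cases i <;> simp [he]
    · rintro (rfl | rfl | rfl | rfl) <;> exact ⟨_, rfl⟩
  have h' := irr_subset h hD'
  rw [hD] at h'
  exact no_four (e 3) (e 2) (e 1) (e 0) (e.strictMono (by decide)) (e.strictMono (by decide))
    (e.strictMono (by decide)) h'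

theorem three' {D : Finset (Fin 13)} (h : Irredundant H D) (hcard : D.card = 3) :
    ∃ i, f i = D := by
  set e := D.orderEmbOfFin hcard with he
  have hD : D = {e 2, e 1, e 0} := by
    ext x
    have := Finset.range_orderEmbOfFin D hcard
    rw [← Finset.mem_coe, ← this, Set.mem_range]
    simp only [Finset.mem_insert, Finset.mem_singleton]
    constructor
    · rintro ⟨i, rfl⟩
      fin_cases i <;> simp [he]
    · rintro (rfl | rfl | rfl) <;> exact ⟨_, rfl⟩
  rw [hD] at h ⊢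
  exact three _ _ _ (e.strictMono (by decide)) (e.strictMono (by decide)) h

theorem ir_eq : IR H = 3 := by
  have h3 : 3 ∈ {k | ∃ D : Finset (Fin 13), Irredundant H D ∧ D.card = k} :=
    ⟨f 0, f_irr 0, f_card 0⟩
  have hb : ∀ k ∈ {k | ∃ D : Finset (Fin 13), Irredundant H D ∧ D.card = k}, k ≤ 3 := by
    rintro k ⟨D, hD, rfl⟩
    exact card_le hD
  exact le_antisymm (csSup_le ⟨3, h3⟩ hb) (le_csSup ⟨3, hb⟩ h3)

theorem isIRSet_iff (D : Finset (Fin 13)) : IsIRSet H D ↔ ∃ i, f i = D := by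
  unfold IsIRSet
  rw [ir_eq]
  constructor
  · rintro ⟨h, hc⟩
    exact three' h hc
  · rintro ⟨i, rfl⟩
    exact ⟨f_irr i, f_card i⟩

/-- The map from the cycle to the `IR`-sets. -/
def g (i : Fin 16) : {D : Finset (Fin 13) // IsIRSet H D} := ⟨f i, (isIRSet_iff _).2 ⟨i, rfl⟩⟩

theorem g_bij : Function.Bijective g := by
  constructor
  · intro i j h
    exact f_inj (congrArg Subtype.val h)
  · rintro ⟨D, hD⟩
    obtain ⟨i, rfl⟩ := (isIRSet_iff D).1 hD
    exact ⟨i, rfl⟩

theorem adj_iff : ∀ i j : Fin 16, (∃ u ∈ f i, ∃ v ∈ f j \ {u}, H.Adj u v ∧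
    f j = (f i \ {u}) ∪ {v}) ↔ (SimpleGraph.cycleGraph 16).Adj i j := by
  decide +kernel

theorem cycle_iso : Nonempty (irGraph H ≃g SimpleGraph.cycleGraph 16) :=
  ⟨(RelIso.symm ⟨Equiv.ofBijective g g_bij, fun {i j} => adj_iff i j⟩)⟩

end Pool.Agent.MP_4ec7af_co
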